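import Pool.Agent.Q222.EP.Up
import Pool.Agent.Q222.EP.Low

/-!
# MP_25bd62_pr: the expected longest path after the (1,1) edge-removal process is of order `log n`

Definitions (file `Pool/Agent/Q222/EP/Proc.lean`): `edges n` is the set of all `(a, b)`,
`1 ≤ a < b ≤ n`; `initials`, `terminals` the vertices of in-degree / out-degree `0`; `step n G e`
deletes `e` from `G` unless this leaves more than one initial or more than one terminal vertex;
`output n l` is the graph obtained from the complete graph by examining the edges in the order of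
the list `l`; `maxPath G` is the largest number of edges of a directed path in `G`; `ords S` is the
set of the orderings of `S`; `expectedLength n` is the mean of `maxPath (output n l)` over all
orderings `l` of `edges n`.
-/

set_option autoImplicit false

namespace Pool.Agent.Results.MP_25bd62_pr.LogarithmicLength

open Finset Pool.Agent.Q222.EP

theorem up_bound (n : ℕ) (hn : 1 ≤ n) : expectedLength n ≤ 50 * Real.log n + 2 := by
  have hnR : (1 : ℝ) ≤ n := by exact_mod_cast hn
  have hn0 : (0 : ℝ) < n := by linarith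
  have hlog : 0 ≤ Real.log n := Real.log_nonneg hnR
  have hl2 := Real.log_two_gt_d9
  have hl2' : (0 : ℝ) < Real.log 2 := by linarith
  set y : ℝ := 34 * Real.log n / Real.log 2 with hy
  have hy0 : 0 ≤ y := by positivity
  have h1 : y ≤ ⌈y⌉₊ := Nat.le_ceil y
  have h2 : (⌈y⌉₊ : ℝ) < y + 1 := Nat.ceil_lt_add_one hy0
  have h3 : (n : ℝ) ^ 34 ≤ 2 ^ ⌈y⌉₊ := by
    rw [← Real.log_le_log_iff (by positivity) (by positivity), Real.log_pow, Real.log_pow]
    have h4 : y * Real.log 2 = 34 * Real.log n := by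
      rw [hy]; field_simp
    have h5 := mul_le_mul_of_nonneg_right h1 hl2'.le
    push_cast
    linarith
  have h4 := upper n hn _ h3
  have h5 : y ≤ 49.1 * Real.log n := by
    rw [hy, div_le_iff₀ hl2']
    have : 34 * Real.log n ≤ 49.1 * Real.log n * 0.693 := by
      nlinarith
    have h6 : 49.1 * Real.log n * 0.693 ≤ 49.1 * Real.log n * Real.log 2 :=
      mul_le_mul_of_nonneg_left (by linarith) (by positivity)
    linarith
  linarith

theorem low_bound (n : ℕ) (hn : 1 ≤ n) : 1 / 4 * Real.log n - 2 ≤ expectedLength n := by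
  have hE : 0 ≤ expectedLength n := by
    unfold expectedLength
    exact div_nonneg (sum_nonneg fun _ _ => Nat.cast_nonneg _) (Nat.cast_nonneg _)
  set m : ℕ := Nat.sqrt (Nat.sqrt n) with hm
  have h1 : n < (m + 1) ^ 4 := by
    have h2 := Nat.lt_succ_sqrt (Nat.sqrt n)
    have h3 := Nat.lt_succ_sqrt n
    rw [← hm] at h2
    have h4 : (Nat.sqrt n + 1) * (Nat.sqrt n + 1) ≤ ((m + 1) * (m + 1)) * ((m + 1) * (m + 1)) :=
      Nat.mul_le_mul h2 h2
    calc n < (Nat.sqrt n + 1) * (Nat.sqrt n + 1) := h3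
      _ ≤ _ := h4
      _ = (m + 1) ^ 4 := by ring
  have h2 : m ^ 4 ≤ n := by
    have h3 := Nat.sqrt_le' n
    have h4 := Nat.sqrt_le' (Nat.sqrt n)
    rw [← hm] at h4
    calc m ^ 4 = (m ^ 2) ^ 2 := by ring
      _ ≤ (Nat.sqrt n) ^ 2 := Nat.pow_le_pow_left h4 2
      _ ≤ n := h3
  have hnR : (1 : ℝ) ≤ n := by exact_mod_cast hn
  have h1R : (n : ℝ) < ((m : ℝ) + 1) ^ 4 := by exact_mod_cast h1
  have h2R : (m : ℝ) ^ 4 ≤ n := by exact_mod_cast h2
  have hlog : Real.log n ≤ 4 * Real.log ((m : ℝ) + 1) := by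
    have := Real.log_le_log (by linarith) h1R.le
    rw [Real.log_pow] at this
    push_cast at this
    exact this
  have hlogm : Real.log ((m : ℝ) + 1) ≤ (m : ℝ) := by
    have := Real.log_le_sub_one_of_pos (x := (m : ℝ) + 1) (by positivity)
    linarith
  by_cases hm2 : m < 2
  · have : (m : ℝ) ≤ 1 := by exact_mod_cast (by omega : m ≤ 1)
    linarith
  have hmR : (2 : ℝ) ≤ m := by exact_mod_cast (by omega : 2 ≤ m)
  have hmn : m < n := by
    have h3 : m * 1 < m * m ^ 3 := by
      apply Nat.mul_lt_mul_of_pos_left _ (by omega)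
      calc 1 < 2 ^ 3 := by norm_num
        _ ≤ m ^ 3 := Nat.pow_le_pow_left (by omega) 3
    calc m = m * 1 := (mul_one m).symm
      _ < m * m ^ 3 := h3
      _ = m ^ 4 := by ring
      _ ≤ n := h2
  have h3 := lower n m (by omega) hmn
  have h4 : (m : ℝ) ^ 3 / ((n : ℝ) - m) ≤ 1 := by
    have hmnR : (m : ℝ) < n := by exact_mod_cast hmn
    rw [div_le_one (by linarith)]
    nlinarith [pow_le_pow_left₀ (by norm_num : (0 : ℝ) ≤ 2) hmR 3, sq_nonneg ((m : ℝ) - 1)]
  have h5 := log_le_har m (by omega)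
  have h6 : Real.log ((m : ℝ) + 1) ≤ Real.log m + 1 := by
    have h7 : Real.log ((m : ℝ) + 1) - Real.log m = Real.log (((m : ℝ) + 1) / m) :=
      (Real.log_div (by linarith) (by linarith)).symm
    have h8 := Real.log_le_sub_one_of_pos (x := ((m : ℝ) + 1) / m) (by positivity)
    have h9 : ((m : ℝ) + 1) / m - 1 ≤ 1 := by
      rw [sub_le_iff_le_add, div_le_iff₀ (by linarith)]
      linarith
    linarith
  linarith

/-- `E[L_n] = Θ(log n)`; explicitly `(1/4) log n - 2 ≤ E[L_n] ≤ 50 log n + 2` for all `n ≥ 1`. -/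
theorem result :
    (∀ n : ℕ, 1 ≤ n → 1 / 4 * Real.log n - 2 ≤ expectedLength n ∧
      expectedLength n ≤ 50 * Real.log n + 2) ∧
    ∃ c C : ℝ, 0 < c ∧ ∃ N : ℕ, ∀ n : ℕ, N ≤ n →
      c * Real.log n ≤ expectedLength n ∧ expectedLength n ≤ C * Real.log n := by
  refine ⟨fun n hn => ⟨low_bound n hn, up_bound n hn⟩, 1 / 8, 52, by norm_num, ?_⟩
  obtain ⟨N, hN⟩ := (Filter.tendsto_atTop.mp
    (Real.tendsto_log_atTop.comp tendsto_natCast_atTop_atTop) 16).exists_forall_of_atTop
  refine ⟨max N 1, fun n hn => ?_⟩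
  have h1 : 16 ≤ Real.log n := hN n (le_trans (le_max_left _ _) hn)
  have h2 := low_bound n (le_trans (le_max_right _ _) hn)
  have h3 := up_bound n (le_trans (le_max_right _ _) hn)
  constructor <;> linarith

end Pool.Agent.Results.MP_25bd62_pr.LogarithmicLength
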